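import Pool.Agent.V5helper23.PF.Stm2

/-!
# Project PF, job LIN: linearity of profiles
-/

set_option autoImplicit false

open MeasureTheory Set Filter Topology
open scoped ENNReal

namespace V5helper1.PF

open Pool.Agent.V5helper23.PF

/-- a directional derivative in the space variable of a jointly continuous function is measurable -/
theorem meas_dir {D : Set (ℝ × ℝ)} (hD : IsOpen D) (T : ℝ) {v g : ℝ → ℝ × ℝ → ℝ} (e : ℝ × ℝ)
    (hc : ContinuousOn (fun q : ℝ × ℝ × ℝ => v q.1 q.2) (Ioc 0 T ×ˢ closure D))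
    (hd : ∀ t ∈ Ioo 0 T, ∀ p ∈ D, HasDerivAt (fun s : ℝ => v t (p + s • e)) (g t p) 0) :
    AEMeasurable (fun q : ℝ × ℝ × ℝ => g q.1 q.2) (volume.restrict (Ioo 0 T ×ˢ D)) := by
  set S : Set (ℝ × ℝ × ℝ) := Ioo 0 T ×ˢ D with hS
  have hSo : IsOpen S := isOpen_Ioo.prod hD
  have hc' : ContinuousOn (fun q : ℝ × ℝ × ℝ => v q.1 q.2) S :=
    hc.mono (prod_mono Ioo_subset_Ioc_self subset_closure)
  set c : ℕ → ℝ := fun n => 1 / ((n : ℝ) + 1) with hcn
  have hc0 : ∀ n, c n ≠ 0 := fun n => by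
    have : (0 : ℝ) < c n := by simp only [hcn]; positivity
    exact this.ne'
  have hcl : Tendsto c atTop (𝓝 0) := tendsto_one_div_add_atTop_nhds_zero_nat
  have hmap : ∀ r : ℝ, Continuous fun q : ℝ × ℝ × ℝ => ((q.1, q.2 + r • e) : ℝ × ℝ × ℝ) := fun r =>
    continuous_fst.prodMk (continuous_snd.add continuous_const)
  set U : ℕ → Set (ℝ × ℝ × ℝ) := fun n =>
    S ∩ (fun q : ℝ × ℝ × ℝ => ((q.1, q.2 + c n • e) : ℝ × ℝ × ℝ)) ⁻¹' S with hU
  have hUo : ∀ n, IsOpen (U n) := fun n => hSo.inter (hSo.preimage (hmap _))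
  refine aemeasurable_of_tendsto_metrizable_ae' (f := fun n => (U n).indicator
    fun q : ℝ × ℝ × ℝ => (c n)⁻¹ * (v q.1 (q.2 + c n • e) - v q.1 q.2)) (fun n => ?_) ?_
  · refine AEMeasurable.restrict ?_
    rw [aemeasurable_indicator_iff (hUo n).measurableSet]
    refine ContinuousOn.aemeasurable ?_ (hUo n).measurableSet
    refine continuousOn_const.mul (ContinuousOn.sub ?_ (hc'.mono inter_subset_left))
    exact hc'.comp (hmap (c n)).continuousOn fun q hq => hq.2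
  · refine (ae_restrict_mem hSo.measurableSet).mono fun q hq => ?_
    have h1 := hasDerivAt_iff_tendsto_slope_zero.1 (hd q.1 hq.1 q.2 hq.2)
    have h2 : Tendsto c atTop (𝓝[≠] 0) :=
      tendsto_nhdsWithin_iff.2 ⟨hcl, Eventually.of_forall fun n => hc0 n⟩
    have h3 := h1.comp h2
    have h4 : ∀ᶠ n in atTop, q ∈ U n := by
      have h5 : Tendsto (fun n => ((q.1, q.2 + c n • e) : ℝ × ℝ × ℝ)) atTop (𝓝 q) := by
        have h6 : Tendsto (fun n => ((q.1, q.2 + c n • e) : ℝ × ℝ × ℝ)) atTop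
            (𝓝 ((q.1, q.2 + (0 : ℝ) • e) : ℝ × ℝ × ℝ)) :=
          tendsto_const_nhds.prodMk_nhds (tendsto_const_nhds.add (hcl.smul_const e))
        simpa using h6
      filter_upwards [h5.eventually (hSo.mem_nhds hq)] with n hn
      exact ⟨hq, hn⟩
    refine h3.congr' ?_
    filter_upwards [h4] with n hn
    rw [indicator_of_mem hn]
    simp

theorem int_sq {α : Type*} [MeasurableSpace α] {μ : Measure α} {a b : α → ℝ} (κ : ℝ)
    (ha : AEMeasurable a μ) (hb : AEMeasurable b μ) (h1 : Integrable (fun x => a x ^ 2) μ)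
    (h2 : Integrable (fun x => b x ^ 2) μ) : Integrable (fun x => (a x + κ * b x) ^ 2) μ := by
  refine Integrable.mono' ((h1.const_mul 2).add (h2.const_mul (2 * κ ^ 2)))
    ((ha.add (hb.const_mul κ)).pow_const 2).aestronglyMeasurable (Eventually.of_forall fun x => ?_)
  rw [Real.norm_of_nonneg (by positivity)]
  simp only [Pi.add_apply]
  nlinarith [sq_nonneg (a x - κ * b x)]

theorem dir_x {L : ℝ × ℝ → ℝ} {a b : ℝ} {p : ℝ × ℝ} (h : HasFDerivAt L
    (a • ContinuousLinearMap.fst ℝ ℝ ℝ + b • ContinuousLinearMap.snd ℝ ℝ ℝ) p) (e : ℝ × ℝ) :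
    HasDerivAt (fun s : ℝ => L (p + s • e)) (a * e.1 + b * e.2) 0 := by
  have h1 : HasDerivAt (fun s : ℝ => p + s • e) ((1 : ℝ) • e) 0 :=
    ((hasDerivAt_id (0 : ℝ)).smul_const e).const_add p
  have h2 : HasFDerivAt L
    (a • ContinuousLinearMap.fst ℝ ℝ ℝ + b • ContinuousLinearMap.snd ℝ ℝ ℝ) (p + (0 : ℝ) • e) := by
    simpa using h
  have h3 : HasDerivAt (fun s : ℝ => L (p + s • e)) _ 0 := h2.comp_hasDerivAt (0 : ℝ) h1
  have h4 : (a • ContinuousLinearMap.fst ℝ ℝ ℝ + b • ContinuousLinearMap.snd ℝ ℝ ℝ)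
      ((1 : ℝ) • e) = a * e.1 + b * e.2 := by simp
  rw [h4] at h3
  exact h3

theorem fd_lin {f g : ℝ × ℝ → ℝ} {a b a' b' : ℝ} {p : ℝ × ℝ} (κ : ℝ) (hf : HasFDerivAt f
    (a • ContinuousLinearMap.fst ℝ ℝ ℝ + b • ContinuousLinearMap.snd ℝ ℝ ℝ) p) (hg : HasFDerivAt g
    (a' • ContinuousLinearMap.fst ℝ ℝ ℝ + b' • ContinuousLinearMap.snd ℝ ℝ ℝ) p) :
    HasFDerivAt (fun p => f p + κ * g p) ((a + κ * a') • ContinuousLinearMap.fst ℝ ℝ ℝ +
      (b + κ * b') • ContinuousLinearMap.snd ℝ ℝ ℝ) p := by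
  refine (hf.add (hg.const_mul κ)).congr_fderiv ?_
  ext <;> simp

theorem t_LIN : S_LIN := by
  intro D T κ F G v w hD hT ⟨vx, vy, vxx, vxy, vyy, h⟩ ⟨wx, wy, wxx, wxy, wyy, k⟩
  have mx : AEMeasurable (fun q : ℝ × ℝ × ℝ => vx q.1 q.2) (volume.restrict (Ioo 0 T ×ˢ D)) :=
    meas_dir hD T (1, 0) h.cont fun t ht p hp => by
      simpa using dir_x (h.d1 t ⟨ht.1, ht.2.le⟩ p hp) (1, 0)
  have my : AEMeasurable (fun q : ℝ × ℝ × ℝ => vy q.1 q.2) (volume.restrict (Ioo 0 T ×ˢ D)) :=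
    meas_dir hD T (0, 1) h.cont fun t ht p hp => by
      simpa using dir_x (h.d1 t ⟨ht.1, ht.2.le⟩ p hp) (0, 1)
  have nx : AEMeasurable (fun q : ℝ × ℝ × ℝ => wx q.1 q.2) (volume.restrict (Ioo 0 T ×ˢ D)) :=
    meas_dir hD T (1, 0) k.cont fun t ht p hp => by
      simpa using dir_x (k.d1 t ⟨ht.1, ht.2.le⟩ p hp) (1, 0)
  have ny : AEMeasurable (fun q : ℝ × ℝ × ℝ => wy q.1 q.2) (volume.restrict (Ioo 0 T ×ˢ D)) :=
    meas_dir hD T (0, 1) k.cont fun t ht p hp => by
      simpa using dir_x (k.d1 t ⟨ht.1, ht.2.le⟩ p hp) (0, 1)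
  refine ⟨fun t p => vx t p + κ * wx t p, fun t p => vy t p + κ * wy t p,
    fun t p => vxx t p + κ * wxx t p, fun t p => vxy t p + κ * wxy t p,
    fun t p => vyy t p + κ * wyy t p, ?_⟩
  constructor
  · exact h.cont.add (continuousOn_const.mul k.cont)
  · exact fun t ht => (h.cxx t ht).add (continuousOn_const.mul (k.cxx t ht))
  · exact fun t ht => (h.cxy t ht).add (continuousOn_const.mul (k.cxy t ht))
  · exact fun t ht => (h.cyy t ht).add (continuousOn_const.mul (k.cyy t ht))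
  · exact fun t ht p hp => fd_lin κ (h.d1 t ht p hp) (k.d1 t ht p hp)
  · exact fun t ht p hp => fd_lin κ (h.dx t ht p hp) (k.dx t ht p hp)
  · exact fun t ht p hp => fd_lin κ (h.dy t ht p hp) (k.dy t ht p hp)
  · intro t ht p hp
    have h1 := (h.dt t ht p hp).add ((k.dt t ht p hp).const_mul κ)
    have e : vxx t p + κ * wxx t p + (vyy t p + κ * wyy t p) =
        vxx t p + vyy t p + κ * (wxx t p + wyy t p) := by ring
    rw [e]
    exact h1
  · -- initial values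
    have h1 : Tendsto (fun t => ENNReal.ofReal 2 *
        (∫⁻ p in D, ENNReal.ofReal ((v t p - F p) ^ 2)) + ENNReal.ofReal (2 * κ ^ 2) *
        (∫⁻ p in D, ENNReal.ofReal ((w t p - G p) ^ 2))) (𝓝[>] 0)
        (𝓝 (ENNReal.ofReal 2 * 0 + ENNReal.ofReal (2 * κ ^ 2) * 0)) :=
      (ENNReal.Tendsto.const_mul h.init (Or.inr ENNReal.ofReal_ne_top)).add
        (ENNReal.Tendsto.const_mul k.init (Or.inr ENNReal.ofReal_ne_top))
    rw [mul_zero, mul_zero, add_zero] at h1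
    refine tendsto_of_tendsto_of_tendsto_of_le_of_le' tendsto_const_nhds h1
      (Eventually.of_forall fun t => zero_le) ?_
    have hev : ∀ᶠ t in 𝓝[>] (0 : ℝ), t ∈ Ioc 0 T := Ioc_mem_nhdsGT hT
    filter_upwards [hev] with t ht
    have mv : AEMeasurable (fun p => v t p) (volume.restrict D) :=
      ContinuousOn.aemeasurable (fun p hp =>
        (h.d1 t ht p hp).continuousAt.continuousWithinAt) hD.measurableSet
    have m1 : AEMeasurable (fun p => ENNReal.ofReal ((v t p - F p) ^ 2)) (volume.restrict D) :=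
      ((mv.sub h.meas).pow_const 2).ennreal_ofReal
    rw [← lintegral_const_mul' _ _ ENNReal.ofReal_ne_top,
      ← lintegral_const_mul' _ _ ENNReal.ofReal_ne_top,
      ← lintegral_add_left' (m1.const_mul _)]
    refine lintegral_mono fun p => ?_
    rw [← ENNReal.ofReal_mul (by norm_num), ← ENNReal.ofReal_mul (by positivity),
      ← ENNReal.ofReal_add (by positivity) (by positivity)]
    refine ENNReal.ofReal_le_ofReal ?_
    nlinarith [sq_nonneg ((v t p - F p) - κ * (w t p - G p))]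
  · intro p hp
    rw [h.fin p hp, k.fin p hp, mul_zero, add_zero]
  · exact int_sq κ mx nx h.ex k.ex
  · exact int_sq κ my ny h.ey k.ey
  · exact h.meas.add (k.meas.const_mul κ)

end V5helper1.PF
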